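import Mathlib

/-!
# Colex diversity and a stability form of Kruskal–Katona (MP_247656_co)

The statement of Q1 is false: take `s = 1`, `n₁ = 7`, `n = 6`, `k = 4` and `x = y = 3`, so that
`t = 21 + 15 - 3 + 1 = 34`.  Let `S` be the family of the first `36` sets of size `5` in colex
order and let `F` be `S` without the two sets `{0,1,2,3,4}` and `{0,1,2,3,5}`.  Then `|F| = t`, the
family `F` is not isomorphic to the family of the first `34` sets, so its colex diversity is at
least `1 = binom(x, k-1)`, but `|∂F| = 55 < 57`.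
-/

namespace Pool.Agent.Results.MP_247656_co.SmallShadow

open Finset

/-- The generalised binomial coefficient `z (z-1) ⋯ (z-m+1) / m!`. -/
noncomputable def rb (z : ℝ) (m : ℕ) : ℝ := (∏ i ∈ range m, (z - i)) / (m.factorial : ℝ)

/-- The colex diversity of a family `F` of `r`-sets with respect to `t`: the minimum, over all
permutations `σ` of the ground set, of `|F \ σ(C)|`, where `C` is the family of the first `⌈t⌉`
`r`-sets in colex order (the initial segment of colex with `⌈t⌉` members). -/
noncomputable def colexDiv (r : ℕ) (F : Finset (Finset ℕ)) (t : ℝ) : ℕ :=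
  sInf {m | ∃ C : Finset (Finset ℕ), Finset.Colex.IsInitSeg C r ∧ C.card = ⌈t⌉₊ ∧
    ∃ σ : Equiv.Perm ℕ, m = (F \ C.image (fun A => A.image σ)).card}

/-- The statement of Q1 for the families `F` with `size t |F|`. -/
def StatementWith (size : ℝ → ℕ → Prop) : Prop :=
  ∀ (s : ℕ) (N : ℕ → ℕ) (n k : ℕ) (x y : ℝ), 0 < s →
    (∀ i, 1 ≤ i → i < s → N i < N (i + 1)) → n < N 1 → k < n → 0 < k →
    (k : ℝ) - 1 ≤ x → x ≤ n - 3 → (n : ℝ) - k ≤ y → y ≤ n - 3 →
    ∀ t : ℝ, t = (∑ i ∈ Icc 1 s, ((N i).choose (k + i) : ℝ)) + (n.choose k : ℝ)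
        - rb y (n - k) + rb x (k - 1) →
      ∀ F : Finset (Finset ℕ), (∀ A ∈ F, A.card = k + s) → size t F.card →
        rb x (k - 1) ≤ colexDiv (k + s) F t →
        (∑ i ∈ Icc 1 s, ((N i).choose (k + i - 1) : ℝ)) + (n.choose (k - 1) : ℝ)
          - rb y (n - k + 1) + rb x (k - 2) ≤ (Finset.shadow F).card

/-- The statement of Q1: all families `F` with `|F| ≥ t`. -/
def StatementQ1 : Prop := StatementWith fun t m => t ≤ (m : ℝ)

/-- The statement of Q1 restricted to the families `F` with `|F| = t`. -/
def StatementQ1Eq : Prop := StatementWith fun t m => t = (m : ℝ)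

/-- The binary code of a set. -/
def code (A : Finset ℕ) : ℕ := ∑ i ∈ A, 2 ^ i

/-- The first 34 sets of size 5 in colex order. -/
def C0 : Finset (Finset ℕ) := (powersetCard 5 (range 8)).filter fun A => code A < 186

/-- The counterexample. -/
def F0 : Finset (Finset ℕ) := (powersetCard 5 (range 8)).filter fun A =>
  code A < 189 ∧ code A ≠ 31 ∧ code A ≠ 47

lemma card_C0 : C0.card = 34 := by decide +kernel

lemma card_F0 : F0.card = 34 := by decide +kernel

lemma shadow_F0 : (Finset.shadow F0).card = 55 := by decide +kernel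

lemma deg_C0 : (C0.filter fun A => 7 ∈ A).card = 13 := by decide +kernel

lemma deg_F0 : ∀ i ∈ range 8, (F0.filter fun A => i ∈ A).card ≠ 13 := by decide +kernel

lemma code_lt {A B : Finset ℕ} : code A < code B ↔ toColex A < toColex B :=
  Finset.geomSum_lt_geomSum_iff_toColex_lt_toColex le_rfl

lemma lt_of_code {A : Finset ℕ} {m : ℕ} (h : code A < 2 ^ m) : A ⊆ range m := by
  intro i hi
  rw [mem_range]
  by_contra hc
  push Not at hc
  have h1 : 2 ^ i ≤ code A := Finset.single_le_sum (f := fun i => 2 ^ i) (fun _ _ => Nat.zero_le _) hi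
  have h2 : 2 ^ m ≤ 2 ^ i := Nat.pow_le_pow_right (by norm_num) hc
  omega

lemma init_C0 : Finset.Colex.IsInitSeg C0 5 := by
  constructor
  · intro A hA
    have : A ∈ C0 := hA
    simp only [C0, mem_filter, mem_powersetCard] at this
    exact this.1.2
  · intro A B hA hB
    simp only [C0, mem_filter, mem_powersetCard] at hA ⊢
    have h := code_lt.mpr hB.1
    have h' : code B < 186 := lt_trans h hA.2
    exact ⟨⟨lt_of_code (m := 8) (by omega), hB.2⟩, h'⟩

lemma eq_C0 {C : Finset (Finset ℕ)} (h : Finset.Colex.IsInitSeg C 5) (hc : C.card = 34) :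
    C = C0 := by
  rcases h.total init_C0 with h1 | h1
  · exact Finset.eq_of_subset_of_card_le h1 (by rw [hc, card_C0])
  · exact (Finset.eq_of_subset_of_card_le h1 (by rw [hc, card_C0])).symm

lemma card_image_perm (σ : Equiv.Perm ℕ) (C : Finset (Finset ℕ)) :
    (C.image (fun A => A.image σ)).card = C.card :=
  Finset.card_image_of_injective _ (Finset.image_injective σ.injective)

lemma colexDiv_F0 : 1 ≤ colexDiv 5 F0 34 := by
  rw [Nat.one_le_iff_ne_zero]
  intro h
  unfold colexDiv at h
  rw [Nat.sInf_eq_zero] at h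
  have hc : ⌈(34 : ℝ)⌉₊ = 34 := Nat.ceil_ofNat 34
  rcases h with h | h
  · obtain ⟨C, hC, hcard, σ, hσ⟩ := h
    rw [hc] at hcard
    have hCC := eq_C0 hC hcard
    subst hCC
    have hsub : F0 ⊆ C0.image (fun A => A.image σ) := by
      rw [← Finset.sdiff_eq_empty_iff_subset]
      exact Finset.card_eq_zero.mp hσ.symm
    have heq : F0 = C0.image (fun A => A.image σ) := by
      apply Finset.eq_of_subset_of_card_le hsub
      rw [card_image_perm, card_C0, card_F0]
    have hdeg : (F0.filter fun A => σ 7 ∈ A).card = 13 := by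
      rw [heq, Finset.filter_image, Finset.card_image_of_injective _
        (Finset.image_injective σ.injective), ← deg_C0]
      congr 1
      ext A
      simp
    by_cases h7 : σ 7 ∈ range 8
    · exact deg_F0 _ h7 hdeg
    · have : (F0.filter fun A => σ 7 ∈ A) = ∅ := by
        apply Finset.filter_eq_empty_iff.mpr
        intro A hA hmem
        simp only [F0, mem_filter, mem_powersetCard] at hA
        exact h7 (hA.1.1 hmem)
      rw [this] at hdeg
      simp at hdeg
  · have : (F0 \ C0.image (fun A => A.image (Equiv.refl ℕ))).card ∈ ({m | ∃ C : Finset (Finset ℕ),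
        Finset.Colex.IsInitSeg C 5 ∧ C.card = ⌈(34 : ℝ)⌉₊ ∧
        ∃ σ : Equiv.Perm ℕ, m = (F0 \ C.image (fun A => A.image σ)).card} : Set ℕ) :=
      ⟨C0, init_C0, by rw [hc, card_C0], Equiv.refl ℕ, rfl⟩
    rw [h] at this
    exact this

lemma result_eq : ¬ StatementQ1Eq := by
  intro H
  have h := H 1 (fun _ => 7) 6 4 3 3 (by norm_num) (by intro i h1 h2; omega) (by norm_num)
    (by norm_num) (by norm_num) (by norm_num) (by norm_num) (by norm_num) (by norm_num) 34
    (by
      have e1 : rb 3 (6 - 4) = 3 := by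
        norm_num [rb, Finset.prod_range_succ, Nat.factorial]
      have e2 : rb 3 (4 - 1) = 1 := by
        norm_num [rb, Finset.prod_range_succ, Nat.factorial]
      have c1 : Nat.choose 7 5 = 21 := by decide
      have c2 : Nat.choose 6 4 = 15 := by decide
      rw [e1, e2]
      simp only [Finset.Icc_self, Finset.sum_singleton]
      norm_num [c1, c2])
    F0 (by
      intro A hA
      simp only [F0, mem_filter, mem_powersetCard] at hA
      exact hA.1.2) (by rw [card_F0]; norm_num)
    (by
      have e2 : rb 3 (4 - 1) = 1 := by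
        norm_num [rb, Finset.prod_range_succ, Nat.factorial]
      rw [e2]
      exact_mod_cast colexDiv_F0)
  have e1 : rb 3 (6 - 4 + 1) = 1 := by
    norm_num [rb, Finset.prod_range_succ, Nat.factorial]
  have e2 : rb 3 (4 - 2) = 3 := by
    norm_num [rb, Finset.prod_range_succ, Nat.factorial]
  have c1 : Nat.choose 7 4 = 35 := by decide
  have c2 : Nat.choose 6 3 = 20 := by decide
  rw [e1, e2, shadow_F0] at h
  simp only [Finset.Icc_self, Finset.sum_singleton] at h
  norm_num [c1, c2] at h

/-- The statement of Q1 is false, and it stays false for the families with `|F| = t`. -/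
theorem result : ¬ StatementQ1 ∧ ¬ StatementQ1Eq := by
  refine ⟨fun H => result_eq ?_, result_eq⟩
  intro s N n k x y h1 h2 h3 h4 h5 h6 h7 h8 h9 t ht F hF hsize hdiv
  exact H s N n k x y h1 h2 h3 h4 h5 h6 h7 h8 h9 t ht F hF (le_of_eq hsize) hdiv

end Pool.Agent.Results.MP_247656_co.SmallShadow
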